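import Pool.Agent.J4.H51.AC.Mn6

/-!
The simplicial volume of right-angled reflection manifolds: a criterion for its vanishing.

Let `L` be the flag complex of a finite graph `G` on `V` and `H` a subgroup of finite index of the
right-angled Coxeter group `W G` which consists of elements of even length (`H ≤ (par G).ker`). If `L`
is a combinatorial sphere of dimension `n - 1` and `H` is torsion-free then the quotient `M = Σ/H` of
the Davis complex is a closed oriented aspherical `n`-manifold with fundamental group `H` and
`χ(M) = [W G : H] χ(W G)`. More generally, each `(n-1)`-cycle `a` of `L` defines an `n`-cycle of `Σ/H`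
(`fch G n a H`: the cube at the vertex `q` spanned by the simplex `v` has the coefficient `± a v`), and
`svol G n a H` is the `ℓ¹`-seminorm of its class in the homology of `H`; it is `‖M‖` if `a` is the fundamental
cycle of the sphere `L`.

The amenable complex `Am(L)` has the vertices of `L`; its simplices are the sets of vertices which generate an
amenable subgroup (`Am G T`: each vertex of `T` is not adjacent to at most one other vertex of `T`; then
the subgroup generated by `T` is a product of infinite dihedral groups and groups of order two). It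
contains `L`.

The theorem: `‖M‖ = 0` if and only if the fundamental class of `L` is zero in `H_{n-1}(Am(L); ℝ)`, a
finite linear algebra problem; otherwise `‖M‖` is at least a constant (which depends only on `L`) times the
index of `H`. The same is true for the classes of all cycles `a`. If `‖M‖ = 0` then `χ(M) = 0`.

Idea. If `θ` is an `(n-1)`-cocycle of `Am(L)`, a local formula at the vertices of the Davis complex defines a
cocycle of `W G`; it is bounded by a Ramsey argument: if the directions from many vertices to
`n + 1` given points are the same then they have a common element or split, and there the local term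
vanishes (`Pool.Agent.J4.H51.AC.Coch2`, `Key2`, `Psi`). For the converse let `c` be a bounded cocycle
and `m_T` an invariant mean of the amenable group generated by `T`. If `s = (s_1, …, s_n)` is a simplex of
`Am(L)` then the contractions `K_T c = m_T(c(x, ⋅))` for the sets `{s_1}, {s_1, s_2}, …, {s_1, …, s_n}`
give a number `θ(s)`; these numbers are a cocycle of the barycentric subdivision of `Am(L)` whose value
at the image of the cycle `a` is, up to a factor `± 2^(-n)`, the value of `c` at `fch G n a H`
(`Mn3`, `Mn4`, `Mn6`). The seminorm is zero if all bounded cocycles vanish at the cycle, by the Hahn-Banach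
theorem (`Mn5`).

Parts of the proof are due to helpers 17, 23 and 96 (`Mn1`, `Mn3`, `Mn4`, `Mn5`) and to the authors of the
lemmas on the Euler characteristic and on the local term.
-/

set_option autoImplicit false

open scoped Classical

namespace Pool.Agent.Results.MP_8a95ee_gt.AmenableComplex

open Pool.Agent.W907.SG (W chiW)
open Pool.Agent.Q134.SV Pool.Agent.N13.QC Pool.Agent.J4.H51.JC Pool.Agent.J4.H51.AC

/-- Let `n = m + 1 ≥ 1`; `G`, `G₀` are finite graphs.

(1) Let `θ` be an alternating function on the `n`-tuples of vertices of `G₀` with `δθ = 0` at the tuples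
in amenable sets. There is `C > 0` such that for all graphs `G`, all simplicial maps `f` from the flag
complex of `G` to the flag complex of `G₀`, all `(n-1)`-cycles `a` of the flag complex of `G` and all
subgroups `H` of finite index which consist of elements of even length
`[W G : H] |⟨θ, f_* a⟩| ≤ C svol G n a H`.

(2) For all cycles `a` and all such `H`: the seminorm `svol G n a H` is zero if and only if `a` is a
boundary in the amenable complex of `G`.

(3) If `a` is not a boundary in the amenable complex then there is `c > 0` with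
`c [W G : H] ≤ svol G n a H` for all such `H`; and if the flag complex is moreover a pseudo-manifold
(`OPM n G`) then it belongs to the class `Cls` of complexes for which Gromov's question was answered,
and hence so do all complexes which are obtained from it by the operations of this class.

(4) If all bounded real `n`-cocycles of `H` are coboundaries then `f_* a` is a boundary in the
amenable complex of `G₀`, for all simplicial maps `f`.

(5) If the flag complex of `G` is a homology sphere with the fundamental cycle `a` whose links are homology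
spheres then there is `C > 0` with `[W G : H] |χ(W G)| ≤ C svol G n a H` for all such `H`, and the flag
complex belongs to the class `Cls`. -/
theorem result :
    (∀ (m : ℕ) (V₀ : Type) [Fintype V₀] (G₀ : SimpleGraph V₀) (θ : (Fin (m + 1) → V₀) → ℝ),
      (∀ (v : Fin (m + 1) → V₀) (i j : Fin (m + 1)), i ≠ j → θ (v ∘ Equiv.swap i j) = - θ v) →
      (∀ w : Fin (m + 2) → V₀, Am G₀ (Set.range w) → cobd θ w = 0) →
      ∃ C : ℝ, 0 < C ∧ ∀ (V : Type) [Fintype V] (G : SimpleGraph V) (f : V → V₀),
        (∀ x y, G.Adj x y → f x = f y ∨ G₀.Adj (f x) (f y)) →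
        ∀ a : (Fin (m + 1) → V) → ℝ, IsCyc (m + 1) G a →
        ∀ H : Subgroup (W G), H.index ≠ 0 → H ≤ (par G).ker →
        (H.index : ℝ) * |∑ v, push f a v * θ v| ≤ C * svol G (m + 1) a H) ∧
    (∀ (m : ℕ) (V : Type) [Fintype V] (G : SimpleGraph V) (a : (Fin (m + 1) → V) → ℝ),
      IsCyc (m + 1) G a → ∀ H : Subgroup (W G), H.index ≠ 0 → H ≤ (par G).ker →
      (svol G (m + 1) a H = 0 ↔ ∃ b : (Fin (m + 2) → V) → ℝ,
        (∀ (w : Fin (m + 2) → V) (i j : Fin (m + 2)), i ≠ j → b (w ∘ Equiv.swap i j) = - b w) ∧
        (∀ w, b w ≠ 0 → Am G (Set.range w)) ∧ ∀ u, ∑ x, b (Fin.cons x u) = a u)) ∧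
    (∀ (m : ℕ) (V : Type) [Fintype V] (G : SimpleGraph V) (a : (Fin (m + 1) → V) → ℝ),
      IsCyc (m + 1) G a → (¬ ∃ b : (Fin (m + 2) → V) → ℝ,
        (∀ (w : Fin (m + 2) → V) (i j : Fin (m + 2)), i ≠ j → b (w ∘ Equiv.swap i j) = - b w) ∧
        (∀ w, b w ≠ 0 → Am G (Set.range w)) ∧ ∀ u, ∑ x, b (Fin.cons x u) = a u) →
      (∃ c : ℝ, 0 < c ∧ ∀ H : Subgroup (W G), H.index ≠ 0 → H ≤ (par G).ker →
        c * (H.index : ℝ) ≤ svol G (m + 1) a H) ∧ (OPM (m + 1) G → Cls (m + 1) V G)) ∧
    (∀ (m : ℕ) (V V₀ : Type) [Fintype V] [Fintype V₀] (G : SimpleGraph V)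
      (G₀ : SimpleGraph V₀) (f : V → V₀), (∀ x y, G.Adj x y → f x = f y ∨ G₀.Adj (f x) (f y)) →
      ∀ a : (Fin (m + 1) → V) → ℝ, IsCyc (m + 1) G a →
      ∀ H : Subgroup (W G), H.index ≠ 0 → H ≤ (par G).ker → ZeroSV (m + 1) H →
      ∃ b : (Fin (m + 2) → V₀) → ℝ,
        (∀ (w : Fin (m + 2) → V₀) (i j : Fin (m + 2)), i ≠ j → b (w ∘ Equiv.swap i j) = - b w) ∧
        (∀ w, b w ≠ 0 → Am G₀ (Set.range w)) ∧ ∀ u, ∑ x, b (Fin.cons x u) = push f a u) ∧
    (∀ (m : ℕ) (V : Type) [Fintype V] (G : SimpleGraph V) (a : (Fin (m + 1) → V) → ℝ),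
      IsCyc (m + 1) G a → HSph (m + 1) G a →
      (∃ C : ℝ, 0 < C ∧ ∀ H : Subgroup (W G), H.index ≠ 0 → H ≤ (par G).ker →
        (H.index : ℝ) * |(chiW G : ℝ)| ≤ C * svol G (m + 1) a H) ∧ Cls (m + 1) V G) := by
  refine ⟨?_, ?_, ?_, ?_, ?_⟩
  · intro m V₀ _ G₀ θ h hθ
    exact A_quant θ h hθ
  · intro m V _ G a ha H hi hε
    rw [svol_iff ha H hi hε]
    constructor
    · rintro ⟨b, h1, h2, h3⟩
      exact ⟨b, h1, h2, fun u => congrFun h3 u⟩
    · rintro ⟨b, h1, h2, h3⟩
      exact ⟨b, h1, h2, funext h3⟩
  · intro m V _ G a ha hJ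
    have hB : ¬ AmBd G a := by
      rintro ⟨b, h1, h2, h3⟩
      exact hJ ⟨b, h1, h2, fun u => congrFun h3 u⟩
    exact ⟨svol_pos ha hB, fun hO => Cls.pos G hO (pos_of_one hO ha (ex_good2 ha hB))⟩
  · intro m V V₀ _ _ G G₀ f hf a ha H hi hε hz
    obtain ⟨b, h1, h2, h3⟩ := A_main f hf a ha H hi hε hz
    exact ⟨b, h1, h2, fun u => congrFun h3 u⟩
  · intro m V _ G a ha hG
    exact ⟨B_quant a ha hG, B_cls ha hG⟩

end Pool.Agent.Results.MP_8a95ee_gt.AmenableComplex
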