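import Pool.Agent.J4.H27.EC.Cox2
import Pool.Agent.J4.H27.EC.Cycl

/-!
# Gromov's question for aspherical manifolds made of Coxeter groups which are not right-angled

Let `(W, S)` be a Coxeter system with the matrix `M` (`M x y = 0` stands for the label `∞`), `L` its nerve,
`a` a real simplicial `(2k-1)`-cycle of `L` (an alternating function on the `2k`-tuples of vertices which
vanishes at the tuples which are not spherical), and `H` a subgroup of finite index of `W` whose elements
have even length. `fch` is the corresponding `2k`-cycle of `H`; if `L` is a triangulated `(2k-1)`-sphere,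
`a` its fundamental cycle, and `H` torsion-free, then `Σ / H` (`Σ` is the Davis complex) is a closed aspherical
manifold with the simplicial volume `svol`.

The lower bounds come from homomorphisms of `W` to products of `PGL₂(ℝ)`, acting on products of circles.
-/

set_option autoImplicit false

open scoped Classical

namespace Pool.Agent.Results.MP_8a95ee_gt.LabelledNerves

open Pool.Agent.Q134.SV Pool.Agent.J4.H27.EC

theorem result {k : ℕ} {S W : Type} [Fintype S] [Group W] {M : CoxeterMatrix S}
    (cs : CoxeterSystem M W) {a : (Fin (2 * k) → S) → ℝ} (ha : IsCyc (2 * k) (finG M) a)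
    {H : Subgroup W} (hH : H.index ≠ 0) (hε : H ≤ (sgn cs).ker) :
    -- (0) the fundamental chain is a cycle modulo `H`: it has the value zero at the coboundaries of the
    -- `H`-invariant functions
    (0 < k → Sph cs a → ∀ b : (Fin (2 * k) → W) → ℝ, (∀ h ∈ H, ∀ g, b (fun i => h * g i) = b g) →
      ((fch (sgn cs) cs.simple (2 * k) a H).sum fun g t => t * cobd b g) = 0) ∧
    -- (A) maps to joins of labelled polygons
    (Sph cs a → ∀ m : Fin k → ℕ, (∀ i, 2 ≤ m i) → ∀ f : S → Fin k × Fin 5, PMap M m f →
      (H.index : ℝ) * (|push f a (ue fun _ => (0, 1))| * ∏ i, kap (m i)) ≤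
        svol (sgn cs) cs.simple (2 * k) a H) ∧
    -- (B) `k` edges `s i`, `t i` of different colours, which are in no monochromatic triangle and (if the
    -- label is two) in no monochromatic cycle of length four; all other finite labels are even
    (Sph cs a → ∀ (col : S → Fin k) (s t : Fin k → S), (∀ i, col (s i) = i) → (∀ i, col (t i) = i) →
      (∀ i, s i ≠ t i) → (∀ i, M (s i) (t i) ≠ 0) →
      (∀ i x, col x = i → x ≠ s i → x ≠ t i → M (s i) x = 0 ∨ M x (t i) = 0) →
      (∀ i x y, M (s i) (t i) = 2 → col x = i → col y = i → x ≠ t i → y ≠ s i → x ≠ y →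
        M (s i) x ≠ 0 → M x y ≠ 0 → M y (t i) ≠ 0 → x = s i ∨ y = t i) →
      (∀ x y, x ≠ y → M x y ≠ 0 → 2 ∣ M x y ∨ ∃ i, (x = s i ∧ y = t i) ∨ (x = t i ∧ y = s i)) →
      (H.index : ℝ) * (|a (weave s t)| * ∏ i, kap (M (s i) (t i))) ≤
        svol (sgn cs) cs.simple (2 * k) a H) ∧
    -- (C) even Coxeter groups and colours without monochromatic triangles, such that no monochromatic edge
    -- with the label two is in a monochromatic cycle of length four
    (Sph cs a → ∀ col : S → Fin k, (∀ x y, x ≠ y → M x y ≠ 0 → 2 ∣ M x y) →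
      (∀ x y z, col x = col y → col y = col z → x ≠ y → y ≠ z → x ≠ z →
        M x y ≠ 0 → M y z ≠ 0 → M x z = 0) →
      (∀ s t x y, M s t = 2 → col t = col s → col x = col s → col y = col s →
        x ≠ t → y ≠ s → x ≠ y → M s x ≠ 0 → M x y ≠ 0 → M y t ≠ 0 → x = s ∨ y = t) →
      ∀ v, (H.index : ℝ) * |a v| ≤ 4 ^ k * svol (sgn cs) cs.simple (2 * k) a H) ∧
    -- (D) balanced nerves: proper colours `0, …, 2k-1`, the labels are two except possibly (even) between
    -- the colours `2i` and `2i+1`, and edges of these colours with the label two are in no cycle of length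
    -- four with these colours (then all cliques are spherical)
    (∀ col : S → ℕ, (∀ x, col x < 2 * k) →
      (∀ x y, x ≠ y → M x y ≠ 0 → col x ≠ col y ∧ 2 ∣ M x y ∧ (col x / 2 ≠ col y / 2 → M x y = 2)) →
      (∀ s t x y, M s t = 2 → col t / 2 = col s / 2 → col x / 2 = col s / 2 →
        col y / 2 = col s / 2 → x ≠ t → y ≠ s → x ≠ y → M s x ≠ 0 → M x y ≠ 0 → M y t ≠ 0 →
        x = s ∨ y = t) →
      Sph cs a ∧
      ∀ v, (H.index : ℝ) * |a v| ≤ 4 ^ k * svol (sgn cs) cs.simple (2 * k) a H) ∧
    -- (E) proper colours `0, …, 2k-1`, all labels even, and the labels between the colours `2i` and `2i+1`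
    -- divisible by `m i ≥ 3`: the sum over all simplices with vertices in a set `A`
    (Sph cs a → ∀ (m : Fin k → ℕ) (col : S → ℕ), (∀ i, 3 ≤ m i) → (∀ x, col x < 2 * k) →
      (∀ x y, x ≠ y → M x y ≠ 0 → col x ≠ col y ∧ 2 ∣ M x y) →
      (∀ (i : Fin k) x y, col x = 2 * i → col y = 2 * i + 1 → m i ∣ M x y) → ∀ A : Set S,
      (H.index : ℝ) * (|∑ v : Fin (2 * k) → S, if ∀ j, v j ∈ A ∧ col (v j) = j then a v else 0| *
        ∏ i, kap (m i)) ≤ svol (sgn cs) cs.simple (2 * k) a H) := by
  refine ⟨?_, ?_, ?_, ?_, ?_, ?_⟩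
  · intro hk hs b hb
    obtain ⟨k, rfl⟩ : ∃ k', k = k' + 1 := ⟨k - 1, by omega⟩
    refine fch_cycle (m := 2 * k + 1) (G := finG M) (fun x => ?_) ha hH hε ?_ b hb
    · exact cs.lift_apply_simple _ x
    · intro v hv j
      have := hs v hv
      have hle : C cs.simple v j ≤ Subgroup.closure (cs.simple '' Set.range v) := by
        apply Subgroup.closure_mono
        apply Set.image_mono
        rintro _ ⟨l, -, rfl⟩
        exact ⟨l, rfl⟩
      exact Finite.of_injective _ (Subgroup.inclusion_injective hle)
  · intro hs m hm f hf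
    exact partA cs m hm f hf ha hs hH hε
  · intro hs col s t h1 h2 h3 h4 h5 h6 h7
    exact partB col cs s t h1 h2 h3 h4 h5 h6 h7 ha hs hH hε
  · intro hs col h1 h2 h3
    exact partC cs col h1 h2 h3 ha hs hH hε
  · intro col h1 h2 h3
    refine ⟨?_, partD cs col h1 h2 h3 ha hH hε⟩
    intro w hw
    exact sph_of cs col h1 (fun x y h h' => ⟨(h2 x y h h').1, (h2 x y h h').2.2⟩) w (ha.supp w hw)
  · intro hs m col h1 h2 h3 h4 A
    exact partE cs m h1 col h2 h3 h4 A ha hs hH hε

end Pool.Agent.Results.MP_8a95ee_gt.LabelledNerves
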