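import Pool.Agent.J4.H51.AC.Spec
import Pool.Agent.J4.H51.AC.Eul
import Pool.Agent.J4.H51.AC.Inst

/-!
Gromov's question for special cubulated manifolds.

Let `G` be a finite graph, `W` its right-angled Coxeter group, `Σ` the Davis complex of `W` (a CAT(0) cube
complex with the set of vertices `W`), `X` the set of the vertices of a convex subcomplex of `Σ` and
`Γ ≤ W` a subgroup which acts on `X` with finitely many orbits. By Haglund and Wise the universal covers
of the cubical subdivisions of all compact special cube complexes, with the action of the fundamental group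
`Γ`, are of this form (for a graph `G` which depends on the complex). If the quotient `M = Γ\X` (of the subcomplex) is a closed
oriented `n`-manifold, then it is aspherical with fundamental group `Γ`, and `‖M‖ = 0` if and only if all
bounded real `n`-cocycles of `Γ` are coboundaries (`ZeroSV n Γ`, duality of Gromov).

The theorem: if `‖M‖ = 0` then `χ(M) = 0`; moreover the combinatorial curvature `∑_σ (-1/2)^|σ|` (sum over
the simplices `σ` of the link, `∅` included) is zero at every vertex of `M`. The right-angled reflection
manifolds (`X = Σ`, `Γ` of finite index in `W`) are special cases. Both quantities are multiplicative in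
finite covers, so this answers Gromov's question for the closed manifolds with a virtually special cube
complex structure. (For hyperbolic `Γ` this is known by Gromov and Mineyev; here flats of any
dimension are allowed.)

Proof. (a) For `g ∈ X` and a vertex `v ∈ X` let `σ_v(g)` be the set of the types of the walls at `v`
which separate `v` from `g`, a simplex of the link of `v`. Key lemma (`key2`, `many`; Ramsey's theorem):
given `g_0, …, g_n`, if `σ_v(g_i) = σ_i` for all `i` and more than `N(G, n)` vertices `v`, then the sets
`σ_i` have a common element, or there are nonempty disjoint sets `P, Q` such that each `σ_i` is the union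
of `P` or `Q` with elements which commute with `P ∪ Q`. (b) The amenable complex `Am(L)` of the link `L` has
as simplices the sets in which each vertex is non-adjacent to at most one other vertex (the special subgroups
of these sets are amenable). For each alternating function `θ` on `n`-tuples of vertices of the link of
`v₀`, closed on `Am`, we construct a local term `Ψ(σ_0, …, σ_{n-1})` by iterated cones, such
that its coboundary vanishes at the tuples which have a common element or a pair `P, Q` as above. So
`c(g_0, …, g_n) = ∑_{v ∈ Γ v₀} (δΨ)(σ_v(g_0), …, σ_v(g_n))` is a bounded cocycle. Its value at an `n`-cycle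
of `Γ\X` is a nonzero multiple of the value of `θ` at the link of the cycle at `v₀`. Hence (1).
(c) If the links are homology spheres then a boundary in `Am(L)` has zero curvature (`chi_zero`): a
double counting with cochains `ν(η; x)`, of relative degree `n - |x|`, of the pairs of `L` and the
complements of the open stars of the simplices `η`. Hence (2).
-/

set_option autoImplicit false

open scoped Classical

namespace Pool.Agent.Results.MP_8a95ee_gt.SpecialCubeManifolds

open Pool.Agent.W907.SG (W chiW)
open Pool.Agent.Q134.SV Pool.Agent.J4.H51.JC Pool.Agent.J4.H51.AC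

/-- Let `n ≥ 1`, `G` a finite graph, `Γ` a subgroup of the right-angled Coxeter group `W G` and `X` the
set of the vertices of a convex subcomplex of the Davis complex, on which `Γ` acts with finitely many
orbits.

(1) For all `n`-cycles of the cube complex `Γ\X`, given by their links `a x` (`SpC`): if all bounded real
`n`-cocycles of `Γ` are coboundaries then, for all `x ∈ X`, the cycle `a x` of the link of `x` is a
boundary in the amenable complex of the link.

(2) If moreover `Γ\X` is a closed oriented (homology) manifold of dimension `n` (`SpM`), then the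
curvature `χ(W_L) = ∑_σ (-1/2)^|σ|` of each link `L` is zero and, if `Γ` is torsion-free, the Euler
characteristic of `Γ\X` (the alternating sum of the numbers of the `Γ`-orbits of cubes) is zero.

(3) The reflection manifolds are special cases: if the flag complex `L` of `G` is a homology sphere of
dimension `n - 1` (all links included) with fundamental cycle `a`, and `H` is a subgroup of finite index
of `W G` which consists of elements of even length, then `H` acts on `X = W G` as in (2); so if all
bounded real `n`-cocycles of `H` are coboundaries then `χ(W G) = 0`. -/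
theorem result :
    (∀ (n : ℕ), 1 ≤ n → ∀ (V : Type) [Fintype V] (G : SimpleGraph V) (Γ : Subgroup (W G))
      (X : Set (W G)) (a : W G → (Fin n → V) → ℝ), SpC n G Γ X a → ZeroSV n Γ → ∀ x ∈ X,
      ∃ b : (Fin (n + 1) → {s | x * gen G s ∈ X}) → ℝ,
        (∀ (v : Fin (n + 1) → {s | x * gen G s ∈ X}) (i j : Fin (n + 1)), i ≠ j →
          b (v ∘ Equiv.swap i j) = - b v) ∧
        (∀ w, b w ≠ 0 → Am (G.induce {s | x * gen G s ∈ X}) (Set.range w)) ∧
        ∀ u : Fin n → {s | x * gen G s ∈ X},
          ∑ y, b (Fin.cons y u) = a x (fun i => (u i : V))) ∧
    (∀ (n : ℕ), 1 ≤ n → ∀ (V : Type) [Fintype V] (G : SimpleGraph V) (Γ : Subgroup (W G))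
      (X : Set (W G)) (a : W G → (Fin n → V) → ℝ), SpM n G Γ X a → ZeroSV n Γ →
      (∀ x ∈ X, chiW (G.induce {s | x * gen G s ∈ X}) = 0) ∧
      ((∀ γ ∈ Γ, ∀ k : ℕ, 0 < k → γ ^ k = 1 → γ = 1) → chiX Γ X = 0)) ∧
    (∀ (n : ℕ), 1 ≤ n → ∀ (V : Type) [Fintype V] (G : SimpleGraph V) (a : (Fin n → V) → ℝ),
      IsCyc n G a → HSph n G a → ∀ H : Subgroup (W G), H.index ≠ 0 → H ≤ (par G).ker →
      SpM n G H Set.univ (fun x v => ((par G x : ℤ) : ℝ) * a v) ∧
      (ZeroSV n H → chiW G = 0)) := by
  refine ⟨?_, ?_, ?_⟩
  · intro n hn V _ G Γ X a hX hz x hx
    obtain ⟨m, rfl⟩ : ∃ m, n = m + 1 := ⟨n - 1, by omega⟩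
    obtain ⟨b, h1, h2, h3⟩ := special_am hX hz x hx
    exact ⟨b, h1, h2, fun u => congrFun h3 u⟩
  · intro n hn V _ G Γ X a hX hz
    obtain ⟨m, rfl⟩ : ∃ m, n = m + 1 := ⟨n - 1, by omega⟩
    have h1 : ∀ x ∈ X, chiW (G.induce {s | x * gen G s ∈ X}) = 0 :=
      fun x hx => special_main hX hz x hx
    refine ⟨h1, fun hΓ => ?_⟩
    have h2 := chiX_eq hX.toSpC hΓ
    have h3 : qs Γ (fun x => if x ∈ X then (chiW (G.induce {s | x * gen G s ∈ X}) : ℝ) else 0) =
        0 := by
      refine finsum_eq_zero_of_forall_eq_zero fun q => ?_
      simp only
      by_cases hq : Quotient.out q ∈ X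
      · rw [if_pos hq, h1 _ hq, Rat.cast_zero]
      · rw [if_neg hq]
    rw [h3] at h2
    exact_mod_cast h2
  · intro n hn V _ G a ha hG H hi hε
    obtain ⟨m, rfl⟩ : ∃ m, n = m + 1 := ⟨n - 1, by omega⟩
    exact ⟨spm_racg ha hG H hi hε, B_main a ha hG H hi hε⟩

end Pool.Agent.Results.MP_8a95ee_gt.SpecialCubeManifolds
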