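import Pool.Agent.J4.H27.UL.Ord

/-!
# Simplicial volume, number of cells and Euler characteristic of aspherical manifolds made of Coxeter
groups with even labels

Let `(W, S)` be a Coxeter system with the matrix `M` (`M x y = 0` stands for the label `∞`), `L` its nerve,
`a` a real simplicial `(2k-1)`-cycle of `L`, and `H` a subgroup of finite index of `W` whose elements have
even length. `fch` is the corresponding `2k`-cycle of `H` and `svol` its `ℓ¹`-seminorm in homology. If `L`
is a triangulated sphere of dimension `2k-1`, `a` its fundamental cycle, and `H` is torsion-free, then `Σ / H`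
(`Σ` is the Davis complex) is a closed oriented aspherical manifold of dimension `2k` with the simplicial
volume `svol`; its cells are the double cosets `W_T w H` for the finite special subgroups `W_T`, and its
Euler characteristic is `chiQ`.

The vertices of `L` are properly coloured by `0, …, 2k-1` (for instance, the order complex of a poset with
the rank function), all labels are even, and the labels between the colours `2i` and `2i+1` are at least
four. There is no condition on the cycles of length four in `L`, and no bound of the labels. Then the
number of the cells of `Σ / H`, hence also the Euler characteristic and all Betti numbers, are bounded by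
`9^k` times the simplicial volume.

The proof: the Coxeter group `P y` of the star of a vertex `y` of the colour `2i` (in the colours `2i`,
`2i+1`) is the semidirect product of the free product of the cyclic groups generated by the elements `x y`
and the group generated by `y`. It has a quasi-cocycle: the sum of truncated signed distances of positions
on the sides of the polygons along a path in a tree of polygons; it is exactly equivariant under
conjugation by the `x`. The Coxeter group of the colours `2i`, `2i+1` acts on the free product of the
groups `P y`, where `y` acts by left multiplication, and `x` by conjugation in all factors. This gives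
2-cocycles for all edges `x y` with labels at least four, whose sum of absolute values is at most two, and
whose value at a flag is `1/2`. The products of `k` such cocycles are evaluated at the fundamental cycle.
-/

set_option autoImplicit false

open scoped Classical

namespace Pool.Agent.Results.MP_8a95ee_gt.UniversalLinearBound

open Pool.Agent.Q134.SV Pool.Agent.J4.H27.EC Pool.Agent.J4.H27.UL

theorem result :
    -- (1) Let `f` be a map of `S` to the vertices `S₀` of an even Coxeter system with the matrix `M₀` which
    -- is properly coloured by `0, …, 2k-1`, such that vertices with a finite label are mapped to equal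
    -- vertices or to vertices whose label divides the given label. The simplicial volume bounds the sum of
    -- the absolute values of the coefficients of `f_* a` at the simplices such that the labels between the
    -- vertices of the colours `2i` and `2i+1` are at least four.
    (∀ (k : ℕ) (S S₀ W : Type) [Fintype S] [Fintype S₀] [Group W] (M : CoxeterMatrix S)
      (cs : CoxeterSystem M W) (M₀ : CoxeterMatrix S₀) (col : S₀ → ℕ), Even2 k M₀ col →
      ∀ f : S → S₀, LMap M M₀ f →
      ∀ a : (Fin (2 * k) → S) → ℝ, IsCyc (2 * k) (finG M) a → Sph cs a →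
      ∀ H : Subgroup W, H.index ≠ 0 → H ≤ (sgn cs).ker →
      (H.index : ℝ) * ∑ u : Fin (2 * k) → S₀, (if Srt M₀ col u then |push f a u| else 0) ≤
        4 ^ k * svol (sgn cs) cs.simple (2 * k) a H) ∧
    -- (2) the number of the cells and the Euler characteristic of `Σ / H`
    (∀ (k : ℕ) (S W : Type) [Fintype S] [Group W] (M : CoxeterMatrix S) (cs : CoxeterSystem M W)
      (col : S → ℕ), Even2 k M col →
      (∀ x y, M x y ≠ 0 → col x % 2 = 0 → col y = col x + 1 → 4 ≤ M x y) →
      ∀ a : (Fin (2 * k) → S) → ℝ, IsCyc (2 * k) (finG M) a → Sph cs a →
      (∀ v, a v ≠ 0 → 1 ≤ |a v|) →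
      (∀ T : Finset S, Finite (spc cs T) → ∃ v, a v ≠ 0 ∧ (T : Set S) ⊆ Set.range v) →
      ∀ H : Subgroup W, H.index ≠ 0 → H ≤ (sgn cs).ker → (∀ h ∈ H, IsOfFinOrder h → h = 1) →
      (∀ T : Finset S, Finite (spc cs T) → cells cs H T * Nat.card (spc cs T) = H.index) ∧
      ∑ T : Finset S, (cells cs H T : ℝ) ≤ 9 ^ k * svol (sgn cs) cs.simple (2 * k) a H ∧
      |(chiQ cs H : ℝ)| ≤ 9 ^ k * svol (sgn cs) cs.simple (2 * k) a H) ∧
    -- (3) flag complexes: the labels are two except between the colours `2i` and `2i+1`
    (∀ (k : ℕ) (S W : Type) [Fintype S] [Group W] (M : CoxeterMatrix S) (cs : CoxeterSystem M W)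
      (col : S → ℕ), PFlag k M col →
      ∀ a : (Fin (2 * k) → S) → ℝ, IsCyc (2 * k) (finG M) a →
      ∀ H : Subgroup W, H.index ≠ 0 → H ≤ (sgn cs).ker →
      Sph cs a ∧ (H.index : ℝ) * ∑ v : Fin (2 * k) → S, (if ∀ j, col (v j) = j then |a v| else 0) ≤
        4 ^ k * svol (sgn cs) cs.simple (2 * k) a H ∧
      ((∀ v, (∀ i j, i ≠ j → (finG M).Adj (v i) (v j)) → |a v| = 1) →
        (∀ T : Finset S, (finG M).IsClique (T : Set S) →
          ∃ v : Fin (2 * k) → S, (∀ i j, i ≠ j → (finG M).Adj (v i) (v j)) ∧
            (T : Set S) ⊆ Set.range v) →
        (∀ h ∈ H, IsOfFinOrder h → h = 1) →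
        ∑ T : Finset S, (cells cs H T : ℝ) ≤ 9 ^ k * svol (sgn cs) cs.simple (2 * k) a H ∧
        |(chiQ cs H : ℝ)| ≤ 9 ^ k * svol (sgn cs) cs.simple (2 * k) a H)) ∧
    -- (4) order complexes of posets with arbitrary even labels `≥ 4` (in particular barycentric
    -- subdivisions) satisfy the condition in (3)
    (∀ (k : ℕ) (P : Type) [PartialOrder P] (rk : P → ℕ), StrictMono rk → (∀ x, rk x < 2 * k) →
      ∀ (lab : P → P → ℕ) (hlab : ∀ x y, 4 ≤ lab x y), (∀ x y, 2 ∣ lab x y) →
      PFlag k (ordM rk lab hlab) rk) := by
  refine ⟨?_, ?_, ?_, ?_⟩
  · intro k S S₀ W _ _ _ M cs M₀ col h₀ f hf a ha hs H hH hε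
    exact linear cs M₀ col h₀ f hf ha hs hH hε
  · intro k S W _ _ M cs col h₀ hl a ha hs h1 hp H hH hε ht
    exact ⟨fun T hT => cells_mul cs T hT ht, cells_le cs col h₀ hl ha hs h1 hp hH hε ht,
      chi_le cs col h₀ hl ha hs h1 hp hH hε ht⟩
  · intro k S W _ _ M cs col hf a ha H hH hε
    exact flag_case cs col hf ha hH hε
  · intro k P _ rk hrk hk lab hlab hev
    exact pflag_ord rk hrk hk lab hlab hev

end Pool.Agent.Results.MP_8a95ee_gt.UniversalLinearBound
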